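import Mathlib
import Pool.Agent.W964.Wd.Gen.Main

/-!
Randomized parallel machines fail on some encoding of a random or random planted instance: the
sizes of the domains.
-/

set_option linter.unusedSectionVars false

namespace Pool.Agent.W964.Wd

open Finset H568R2 H592R3 Pool.Agent.W964.Pram


open Classical in
/-- Every randomized machine fails on some encoded instance. -/
theorem gen_rand2 (ε : ℝ) (hε : 0 < ε) (K : ℕ) :
    ∃ Q : ℕ, 6 ≤ Q ∧ ∃ C : ℝ, 0 < C ∧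
    ∀ n T w : ℕ, 2 ≤ n → 1 ≤ T → C * (T * Real.log n) ≤ w → w ≤ n →
    ∃ b m' : ℕ, 1 ≤ b ∧ 2 ≤ m' ∧ ar Q * (2 * (3 * T) * b) + 1 ≤ w ∧
      Q * m' * (2 * (3 * T) * b + 1) ≤ n ∧ w ≤ 8 * ar Q * (3 * T * b) ∧
      ∃ s : Fin (Q * m') → Fin (ar Q) → Fin (Q * m'), (∀ i, s i 0 = i) ∧
      ∀ (W J : Type) (σ : (Vr Q T b m' → Bool) → (J → W)), (∀ j, One (fun x => σ x j)) →
      ∀ (P : ℕ) (R : RandMachine W J P), (P : ℝ) ≤ 2 ^ ((1 - ε) * n) → R.Lists (2 ^ (K * n)) →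
        ∃ X : Vr Q T b m' → Bool,
          R.success T (σ X) (Sat s X) ≤ 1 / 2 + (2 : ℝ) ^ (-((w : ℝ) / C)) := by
  obtain ⟨ε', hε'⟩ : ∃ ε' : ℝ, ε' = min ε (1 / 2) := ⟨_, rfl⟩
  have hε0 : 0 < ε' := by rw [hε']; exact lt_min hε (by norm_num)
  have hε1 : ε' ≤ 1 / 2 := by rw [hε']; exact min_le_right _ _
  have hε2 : ε' ≤ ε := by rw [hε']; exact min_le_left _ _
  obtain ⟨Q, hQ6, C', hC', hpar⟩ := gen_hard ε' hε0 hε1 K
  obtain ⟨C, hC⟩ : ∃ C : ℝ, C = C' + 16 * (2 * Q ^ 2 + 14 + 1) := ⟨_, rfl⟩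
  have hQR : (6 : ℝ) ≤ Q := by exact_mod_cast hQ6
  have hC0 : 0 < C := by rw [hC]; positivity
  have hC8 : 8 ≤ C := by
    rw [hC]
    nlinarith
  refine ⟨Q, hQ6, C, hC0, ?_⟩
  intro n T w hn hT hw hwn
  have hnR : (2 : ℝ) ≤ n := by exact_mod_cast hn
  have hlogn : 0 ≤ Real.log n := Real.log_nonneg (by linarith)
  obtain ⟨b, m', hb, hm', hB2, hBw, hQn, hexp, hwb, s, hs, hMach⟩ := hpar n T w hn hT (by
    refine le_trans ?_ hw
    apply mul_le_mul_of_nonneg_right _ (by positivity)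
    rw [hC]
    have : (0 : ℝ) ≤ 16 * (2 * Q ^ 2 + 14 + 1) := by positivity
    linarith) hwn
  refine ⟨b, m', hb, hm', hBw, hQn, hwb, s, hs, ?_⟩
  intro W J σ hσ P R hP hR
  obtain ⟨σ', hσ'⟩ : ∃ σ' : (Fin 1 × Vr Q T b m' → Bool) → (J → W),
      σ' = fun X => σ (fun v => X (0, v)) := ⟨_, rfl⟩
  have hσj : ∀ j, One (fun x => σ' x j) := by
    intro j
    rw [hσ']
    rcases hσ j with ⟨a, h⟩ | ⟨i, g, h⟩
    · exact Or.inl ⟨a, fun x => h _⟩
    · exact Or.inr ⟨(0, i), g, fun x => h _⟩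
  obtain ⟨p, hp⟩ : ∃ p : ℝ, p = Pram.dens T b := ⟨_, rfl⟩
  have hp0 : 0 ≤ p := by rw [hp]; unfold Pram.dens; positivity
  have hp1 : p ≤ 1 := by
    have h1 : (1 : ℝ) ≤ ((2 : ℝ) ^ (3 * T * b)) ^ 3 := one_le_pow₀ (one_le_pow₀ (by norm_num))
    have h2 : 1 / ((2 : ℝ) ^ (3 * T * b)) ^ 3 ≤ 1 := by
      rw [div_le_one (by positivity)]; exact h1
    rw [hp]
    unfold Pram.dens
    linarith
  have hP' : (P : ℝ) ≤ 2 ^ ((1 - ε') * n) := by
    refine hP.trans ?_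
    apply Real.rpow_le_rpow_of_exponent_le (by norm_num)
    nlinarith
  rw [← hp] at hMach
  have hNN : 1 ≤ dom T b := by unfold dom; exact Nat.one_le_two_pow
  obtain ⟨B, hB⟩ : ∃ B : ℝ, B = 3 * (((dom T b : ℕ) : ℝ) ^ (Q * m') / 2 ^ (3 * T * b)) :=
    ⟨_, rfl⟩
  have hNp : (0 : ℝ) < (((dom T b : ℕ) : ℝ)) ^ (Q * m') := by unfold dom; positivity
  -- the bound for one machine
  have hcore : ∀ ω, ∑ y : ((Fin 1 × Vr Q T b m' → Bool) ×
      (Fin 1 × (Fin (Q * m') → Fin (dom T b)))) × Bool,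
      ((∏ i, vp p (y.1.1 i)) * (1 / ((dom T b : ℕ) : ℝ) ^ (Q * m')) * (1 / 2)) *
      (if (((R.mach ω).answer T
          (σ' (if y.2 = true then plant (vi s y.1.2) univ y.1.1 else y.1.1)) = true) ↔
        Sat s (fun v => (if y.2 = true then plant (vi s y.1.2) univ y.1.1 else y.1.1) (0, v)))
        then (1 : ℝ) else 0) ≤
      1 / 2 + (((dom T b : ℕ) : ℝ) ^ (Q * m') * p ^ (Q * m') +
        B / ((dom T b : ℕ) : ℝ) ^ (Q * m')) / 2 := by
    intro ω
    have h1 := hMach 1 le_rfl Nat.one_le_two_pow W J σ' hσj P (R.mach ω) hP' (hR ω)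
    have h2 := abs_core (N := dom T b) hNN s hp0 hp1 (fun X => (R.mach ω).result T (σ' X))
      (fun v => (R.mach ω).accept v = true) (B := B) (by
        rw [hB]
        exact h1)
    refine le_trans (le_of_eq ?_) h2
    exact Finset.sum_congr rfl fun y _ => by congr!
  let _ := R.fin
  obtain ⟨y, hy⟩ := avg_exists (fun y : ((Fin 1 × Vr Q T b m' → Bool) ×
      (Fin 1 × (Fin (Q * m') → Fin (dom T b)))) × Bool =>
      ((∏ i, vp p (y.1.1 i)) * (1 / ((dom T b : ℕ) : ℝ) ^ (Q * m')) * (1 / 2)))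
      (fun y => mul_nonneg (mul_nonneg
    (Finset.prod_nonneg fun i _ => vp_nonneg hp0 hp1 _) (by positivity)) (by norm_num)) (by
      rw [Fintype.sum_prod_type, Fintype.sum_prod_type]
      dsimp only
      simp_rw [Fintype.sum_bool]
      have hcard : ∑ _κ : Fin 1 × (Fin (Q * m') → Fin (dom T b)),
          (1 / ((dom T b : ℕ) : ℝ) ^ (Q * m')) = 1 := by
        rw [Finset.sum_const, Finset.card_univ, Fintype.card_prod, Fintype.card_fun,
          Fintype.card_fin, Fintype.card_fin, Fintype.card_fin, nsmul_eq_mul, one_mul]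
        push_cast
        field_simp
      have hμ1 : ∑ X : Fin 1 × Vr Q T b m' → Bool, ∏ i, vp p (X i) = 1 := by
        have := Ex_const (I := Fin 1 × Vr Q T b m') (vp_sum p) (1 : ℝ)
        unfold Ex at this
        simpa using this
      refine Eq.trans ?_ hμ1
      refine Finset.sum_congr rfl fun X _ => ?_
      rw [Finset.sum_congr rfl fun κ _ => (show (∏ i, vp p (X i)) *
        (1 / ((dom T b : ℕ) : ℝ) ^ (Q * m')) * (1 / 2) + (∏ i, vp p (X i)) *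
        (1 / ((dom T b : ℕ) : ℝ) ^ (Q * m')) * (1 / 2) = (∏ i, vp p (X i)) *
        (1 / ((dom T b : ℕ) : ℝ) ^ (Q * m')) by ring), ← Finset.mul_sum, hcard, mul_one])
    R.prob R.nonneg R.total
    (fun ω y => ((R.mach ω).answer T
          (σ' (if y.2 = true then plant (vi s y.1.2) univ y.1.1 else y.1.1)) = true) ↔
        Sat s (fun v => (if y.2 = true then plant (vi s y.1.2) univ y.1.1 else y.1.1) (0, v)))
    (1 / 2 + (((dom T b : ℕ) : ℝ) ^ (Q * m') * p ^ (Q * m') +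
        B / ((dom T b : ℕ) : ℝ) ^ (Q * m')) / 2)
    (fun ω => le_trans (le_of_eq (Finset.sum_congr rfl fun y _ => by congr!)) (hcore ω))
  refine ⟨fun v => (if y.2 = true then plant (vi s y.1.2) univ y.1.1 else y.1.1) (0, v), ?_⟩
  have h1 : R.success T (σ (fun v => (if y.2 = true then plant (vi s y.1.2) univ y.1.1
      else y.1.1) (0, v))) (Sat s (fun v => (if y.2 = true then plant (vi s y.1.2) univ y.1.1
      else y.1.1) (0, v))) ≤
      1 / 2 + (((dom T b : ℕ) : ℝ) ^ (Q * m') * p ^ (Q * m') +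
        B / ((dom T b : ℕ) : ℝ) ^ (Q * m')) / 2 := by
    rw [hσ'] at hy
    refine le_trans (le_of_eq ?_) hy
    unfold RandMachine.success
    exact Finset.sum_congr rfl fun ω _ => by congr!
  refine h1.trans ?_
  obtain ⟨E, hE⟩ : ∃ E : ℝ, E = (2 : ℝ) ^ (-((w : ℝ) / C)) := ⟨_, rfl⟩
  have hE0 : 0 < E := by rw [hE]; positivity
  rw [← hE]
  have hwR : (w : ℝ) ≤ n := by exact_mod_cast hwn
  have h2 : (((dom T b : ℕ) : ℝ) ^ (Q * m') * p ^ (Q * m')) ≤ E := by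
    have h3 := sat_arith Q (3 * T) b m' n ε' hexp
    have h3' : (((dom T b : ℕ) : ℝ)) ^ (Q * m') * p ^ (Q * m') ≤
      2 ^ (-((1 - ε') * n / 2)) := by rw [hp]; exact h3
    refine h3'.trans ?_
    rw [hE]
    apply Real.rpow_le_rpow_of_exponent_le (by norm_num)
    have h5 : (w : ℝ) / C ≤ n / 8 :=
      (div_le_div_of_nonneg_right hwR hC0.le).trans
        (div_le_div_of_nonneg_left (by linarith) (by norm_num) hC8)
    nlinarith
  have hdt : 1 ≤ 3 * T * b := Nat.one_le_iff_ne_zero.2 (by positivity)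
  have h4 : (4 : ℝ) ≤ 2 ^ ((3 * T * b : ℕ) / 2 : ℝ) := by
    have h5 : (2 : ℝ) ≤ (3 * T * b : ℕ) / 2 := by
      rw [le_div_iff₀ (by norm_num)]
      have : 4 ≤ 3 * T * b := by omega
      have h6 : ((4 : ℕ) : ℝ) ≤ ((3 * T * b : ℕ) : ℝ) := by exact_mod_cast this
      push_cast at h6 ⊢
      linarith
    calc (4 : ℝ) = 2 ^ (2 : ℝ) := by norm_num
      _ ≤ 2 ^ ((3 * T * b : ℕ) / 2 : ℝ) := Real.rpow_le_rpow_of_exponent_le (by norm_num) h5
  have h5 : (2 : ℝ) ^ (3 * T * b) = 2 ^ ((3 * T * b : ℕ) / 2 : ℝ) * 2 ^ ((3 * T * b : ℕ) / 2 : ℝ) := by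
    rw [← Real.rpow_add (by norm_num), add_halves, Real.rpow_natCast]
  have h6 : E = 1 / 2 ^ ((w : ℝ) / C) := by
    rw [hE, Real.rpow_neg (by norm_num), one_div]
  have h7 : (2 : ℝ) ^ ((w : ℝ) / C) ≤ 2 ^ ((3 * T * b : ℕ) / 2 : ℝ) := by
    apply Real.rpow_le_rpow_of_exponent_le (by norm_num)
    rw [div_le_div_iff₀ hC0 (by norm_num)]
    have h8 : (w : ℝ) ≤ 8 * (2 * Q ^ 2 + 14 + 1) * (3 * T * b) := by
      have : ((w : ℕ) : ℝ) ≤ ((8 * ar Q * (3 * T * b) : ℕ) : ℝ) := by exact_mod_cast hwb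
      unfold ar at this
      push_cast at this
      exact this
    have h9 : 16 * (2 * (Q : ℝ) ^ 2 + 14 + 1) * (3 * T * b) ≤ C * (3 * T * b) := by
      apply mul_le_mul_of_nonneg_right _ (by positivity)
      rw [hC]; linarith only [hC']
    push_cast
    linarith only [h8, h9]
  have h8 : (3 : ℝ) / 2 ^ (3 * T * b) ≤ E := by
    rw [h6, h5, div_le_div_iff₀ (by positivity) (by positivity)]
    have h8 : (0 : ℝ) < 2 ^ ((3 * T * b : ℕ) / 2 : ℝ) := by positivity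
    have h9 := mul_le_mul_of_nonneg_right h4 h8.le
    linarith only [h9, h7, h8]
  have h9 : B / ((dom T b : ℕ) : ℝ) ^ (Q * m') = 3 / 2 ^ (3 * T * b) := by
    rw [hB]
    field_simp
  rw [h9]
  linarith only [h2, h8, hE0]

end Pool.Agent.W964.Wd
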