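import Mathlib
import Pool.Agent.W964.Wd.Etr.Gen2
import Pool.Agent.W964.Wd.Hn.Enc

/-!
The encoding of the constraint satisfaction problems as systems of polynomial equations whose
unknowns take many values.
-/

set_option linter.unusedSectionVars false

namespace Pool.Agent.W964.Wd

open Finset H568R2 H592R3 Pool.Agent.W964.Pram MvPolynomial

section Lag
variable {n : ℕ}

/-- The product of the factors `x - u`, for the numbers `u` below `k` different from `v`. -/
noncomputable def lag (k : ℕ) (x : Fin n) (v : ℕ) : MvPolynomial (Fin n) ℤ :=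
  ∏ u ∈ (range k).erase v, (X x - C (u : ℤ))

/-- The product of the factors `x - u`, for all numbers `u` below `k`. -/
noncomputable def lagAll (k : ℕ) (x : Fin n) : MvPolynomial (Fin n) ℤ :=
  ∏ u ∈ range k, (X x - C (u : ℤ))

lemma lin_degree (x : Fin n) (u : ℤ) : (X x - C u : MvPolynomial (Fin n) ℤ).totalDegree ≤ 1 := by
  refine (totalDegree_sub _ _).trans ?_
  rw [totalDegree_X, totalDegree_C]
  exact le_of_eq rfl

lemma lag_degree (k : ℕ) (x : Fin n) (v : ℕ) : (lag k x v).totalDegree ≤ k := by
  unfold lag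
  refine (degree_prod ((range k).erase v) (fun u : ℕ => (X x - C (u : ℤ) : MvPolynomial (Fin n) ℤ))
    1 fun u _ => lin_degree x (u : ℤ)).trans ?_
  rw [mul_one]
  refine (Finset.card_le_card (Finset.erase_subset _ _)).trans ?_
  rw [card_range]

lemma lagAll_degree (k : ℕ) (x : Fin n) : (lagAll k x).totalDegree ≤ k := by
  unfold lagAll
  refine (degree_prod (range k) (fun u : ℕ => (X x - C (u : ℤ) : MvPolynomial (Fin n) ℤ))
    1 fun u _ => lin_degree x (u : ℤ)).trans ?_
  rw [mul_one, card_range]

/-- Products of factors `x - u` contain only powers of `x`. -/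
lemma prod_lin_support (x : Fin n) (S : Finset ℕ) :
    (∏ u ∈ S, (X x - C (u : ℤ)) : MvPolynomial (Fin n) ℤ).support ⊆
      (range (S.card + 1)).image (fun i => Finsupp.single x i) := by
  classical
  induction S using Finset.induction_on with
  | empty =>
    rw [prod_empty, card_empty, support_one]
    intro m hm
    rw [mem_singleton] at hm
    rw [mem_image]
    exact ⟨0, by simp, by rw [hm]; simp⟩
  | insert a S ha ih =>
    rw [prod_insert ha, card_insert_of_notMem ha]
    intro m hm
    have h1 := support_mul _ _ hm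
    rw [Finset.mem_add] at h1
    obtain ⟨m1, hm1, m2, hm2, rfl⟩ := h1
    have h2 := ih hm2
    rw [mem_image] at h2
    obtain ⟨i, hi, rfl⟩ := h2
    rw [mem_range] at hi
    have h3 : m1 = Finsupp.single x 1 ∨ m1 = 0 := by
      have h4 := support_sub _ _ _ hm1
      rw [mem_union] at h4
      rcases h4 with h4 | h4
      · left
        rw [support_X] at h4
        exact mem_singleton.1 h4
      · right
        rw [C_apply] at h4
        exact mem_singleton.1 (support_monomial_subset h4)
    rw [mem_image]
    rcases h3 with rfl | rfl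
    · exact ⟨i + 1, by rw [mem_range]; omega, by rw [add_comm i 1, Finsupp.single_add]⟩
    · exact ⟨i, by rw [mem_range]; omega, by rw [zero_add]⟩

lemma prod_lin_card (x : Fin n) (S : Finset ℕ) :
    (∏ u ∈ S, (X x - C (u : ℤ)) : MvPolynomial (Fin n) ℤ).support.card ≤ S.card + 1 := by
  classical
  refine (Finset.card_le_card (prod_lin_support x S)).trans ?_
  refine Finset.card_image_le.trans ?_
  rw [card_range]

lemma lag_support (k : ℕ) (x : Fin n) {v : ℕ} (hv : v < k) : (lag k x v).support.card ≤ k := by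
  unfold lag
  refine (prod_lin_card _ _).trans ?_
  rw [card_erase_of_mem (mem_range.2 hv), card_range]
  omega

lemma lagAll_support (k : ℕ) (x : Fin n) : (lagAll k x).support.card ≤ k + 1 := by
  unfold lagAll
  refine (prod_lin_card _ _).trans ?_
  rw [card_range]

variable {F : Type} [Field F]

lemma lin_eval (z : Fin n → F) (x : Fin n) (u : ℕ) :
    aeval z (X x - C (u : ℤ) : MvPolynomial (Fin n) ℤ) = z x - u := by
  rw [map_sub, aeval_X]
  congr 1
  rw [aeval_C]
  simp

lemma lag_eval [CharZero F] {z : Fin n → F} {x : Fin n} {a k : ℕ} (hz : z x = a) (ha : a < k)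
    (v : ℕ) : aeval z (lag k x v) = 0 ↔ a ≠ v := by
  unfold lag
  rw [map_prod, prod_eq_zero_iff]
  constructor
  · rintro ⟨u, hu, hu2⟩
    rw [lin_eval, hz, sub_eq_zero, Nat.cast_inj] at hu2
    rw [hu2]
    exact (mem_erase.1 hu).1
  · intro hav
    refine ⟨a, mem_erase.2 ⟨hav, mem_range.2 ha⟩, ?_⟩
    rw [lin_eval, hz, sub_self]

lemma lagAll_eval {z : Fin n → F} {x : Fin n} {k : ℕ} :
    aeval z (lagAll k x) = 0 ↔ ∃ a < k, z x = a := by
  unfold lagAll
  rw [map_prod, prod_eq_zero_iff]
  constructor
  · rintro ⟨u, hu, hu2⟩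
    rw [lin_eval, sub_eq_zero] at hu2
    exact ⟨u, mem_range.1 hu, hu2⟩
  · rintro ⟨a, ha, haz⟩
    refine ⟨a, mem_range.2 ha, ?_⟩
    rw [lin_eval, haz, sub_self]

end Lag

section Enc
variable {m r N G k n M : ℕ} (s : Fin m → Fin r → Fin m) (e : (Fin m × Fin G) ↪ Fin n)
  (dec : (Fin G → Fin k) → Fin N)
  (π : Fin M → (Fin m × (Fin r → Fin G → Fin k)) ⊕ Fin n)

/-- The polynomial that vanishes at the assignments of numbers below `k` which disagree with `u` on
the scope `i`. -/
noncomputable def tupPolyK (iu : Fin m × (Fin r → Fin G → Fin k)) : MvPolynomial (Fin n) ℤ :=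
  ∏ t : Fin r, ∏ g : Fin G, lag k (e (s iu.1 t, g)) (iu.2 t g)

/-- The system of equations. -/
noncomputable def sysOfK (Y : (Fin m × (Fin r → Fin N)) → Bool) (c : Fin M) :
    MvPolynomial (Fin n) ℤ :=
  match π c with
  | Sum.inl iu => if Y (iu.1, fun t => dec (iu.2 t)) = true then 0 else tupPolyK s e iu
  | Sum.inr v => lagAll k v

lemma tupK_degree (iu : Fin m × (Fin r → Fin G → Fin k)) :
    (tupPolyK s e iu).totalDegree ≤ r * (G * k) := by
  unfold tupPolyK
  have h := degree_prod (univ : Finset (Fin r))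
    (fun t => ∏ g : Fin G, lag k (e (s iu.1 t, g)) (iu.2 t g)) (G * k) (fun t _ => by
      have h := degree_prod (univ : Finset (Fin G))
        (fun g => lag k (e (s iu.1 t, g)) (iu.2 t g)) k (fun g _ => lag_degree _ _ _)
      rwa [Finset.card_univ, Fintype.card_fin] at h)
  rwa [Finset.card_univ, Fintype.card_fin] at h

lemma tupK_support (iu : Fin m × (Fin r → Fin G → Fin k)) :
    (tupPolyK s e iu).support.card ≤ (k ^ G) ^ r := by
  unfold tupPolyK
  have h := card_support_prod (univ : Finset (Fin r))
    (fun t => ∏ g : Fin G, lag k (e (s iu.1 t, g)) (iu.2 t g)) (k ^ G) (fun t _ => by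
      have h := card_support_prod (univ : Finset (Fin G))
        (fun g => lag k (e (s iu.1 t, g)) (iu.2 t g)) k (fun g _ => lag_support _ _ (iu.2 t g).2)
      rwa [Finset.card_univ, Fintype.card_fin] at h)
  rwa [Finset.card_univ, Fintype.card_fin] at h

lemma sysK_degree {D : ℕ} (hD1 : r * (G * k) ≤ D) (hD2 : k ≤ D)
    (Y : (Fin m × (Fin r → Fin N)) → Bool) (c : Fin M) :
    (sysOfK s e dec π Y c).totalDegree ≤ D := by
  unfold sysOfK
  cases h : π c with
  | inl iu =>
    dsimp only
    split_ifs
    · rw [totalDegree_zero]; omega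
    · exact (tupK_degree s e iu).trans hD1
  | inr v =>
    dsimp only
    exact (lagAll_degree k v).trans hD2

lemma sysK_support {D : ℕ} (hD1 : (k ^ G) ^ r ≤ D) (hD2 : k + 1 ≤ D)
    (Y : (Fin m × (Fin r → Fin N)) → Bool) (c : Fin M) :
    (sysOfK s e dec π Y c).support.card ≤ D := by
  unfold sysOfK
  cases h : π c with
  | inl iu =>
    dsimp only
    split_ifs
    · rw [support_zero, Finset.card_empty]
      exact Nat.zero_le _
    · exact (tupK_support s e iu).trans hD1
  | inr v =>
    dsimp only
    exact (lagAll_support k v).trans hD2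

lemma sysK_one (c : Fin M) :
    One (fun Y : (Fin m × (Fin r → Fin N)) → Bool => sysOfK s e dec π Y c) := by
  cases h : π c with
  | inl iu =>
    refine Or.inr ⟨(iu.1, fun t => dec (iu.2 t)), fun b => if b = true then 0 else tupPolyK s e iu,
      fun Y => ?_⟩
    unfold sysOfK
    rw [h]
  | inr v =>
    refine Or.inl ⟨lagAll k v, fun Y => ?_⟩
    unfold sysOfK
    rw [h]

lemma sysK_sat {F : Type} [Field F] [CharZero F] (hk : 0 < k) (hdec : Function.Surjective dec)
    (hπ : Function.Surjective π) (Y : (Fin m × (Fin r → Fin N)) → Bool) :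
    Sat s Y ↔ ∃ z : Fin n → F, ∀ c, aeval z (sysOfK s e dec π Y c) = 0 := by
  classical
  constructor
  · rintro ⟨a, ha⟩
    obtain ⟨u, hu⟩ : ∃ u : Fin m → Fin G → Fin k, ∀ j, dec (u j) = a j :=
      ⟨fun j => Function.surjInv hdec (a j), fun j => Function.surjInv_eq hdec (a j)⟩
    obtain ⟨z, hz⟩ : ∃ z : Fin n → F, z = fun v =>
      if h : ∃ jg, e jg = v then ((u (Classical.choose h).1 (Classical.choose h).2 : ℕ) : F)
      else 0 := ⟨_, rfl⟩
    have hz2 : ∀ j g, z (e (j, g)) = ((u j g : ℕ) : F) := by
      intro j g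
      rw [hz]
      dsimp only
      have h : ∃ jg, e jg = e (j, g) := ⟨_, rfl⟩
      rw [dif_pos h]
      have h1 := e.injective (Classical.choose_spec h)
      rw [h1]
    refine ⟨z, fun c => ?_⟩
    unfold sysOfK
    cases h : π c with
    | inl iu =>
      dsimp only
      split_ifs with hY
      · exact map_zero _
      · unfold tupPolyK
        have hne : (fun t => u (s iu.1 t)) ≠ iu.2 := by
          intro heq
          apply hY
          have h1 := ha iu.1
          have h2 : (fun k => a (s iu.1 k)) = fun t => dec (iu.2 t) := by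
            funext t
            rw [← heq]
            exact (hu _).symm
          rw [← h2]
          exact h1
        obtain ⟨t, ht⟩ := Function.ne_iff.1 hne
        obtain ⟨g, hg⟩ := Function.ne_iff.1 ht
        rw [map_prod]
        apply Finset.prod_eq_zero (Finset.mem_univ t)
        rw [map_prod]
        apply Finset.prod_eq_zero (Finset.mem_univ g)
        rw [lag_eval (hz2 _ _) (u _ _).2]
        exact fun h => hg (Fin.ext h)
    | inr v =>
      dsimp only
      rw [lagAll_eval, hz]
      dsimp only
      split_ifs with h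
      · exact ⟨_, (u _ _).2, rfl⟩
      · exact ⟨0, hk, by simp⟩
  · rintro ⟨z, hz⟩
    have hval : ∀ v, ∃ a : Fin k, z v = ((a : ℕ) : F) := by
      intro v
      obtain ⟨c, hc⟩ := hπ (Sum.inr v)
      have h := hz c
      unfold sysOfK at h
      rw [hc] at h
      dsimp only at h
      rw [lagAll_eval] at h
      obtain ⟨a, ha, haz⟩ := h
      exact ⟨⟨a, ha⟩, haz⟩
    choose β hβ using hval
    refine ⟨fun j => dec (fun g => β (e (j, g))), fun i => ?_⟩
    by_contra hne
    obtain ⟨c, hc⟩ := hπ (Sum.inl (i, fun t g => β (e (s i t, g))))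
    have h := hz c
    unfold sysOfK at h
    rw [hc] at h
    dsimp only at h
    rw [if_neg hne] at h
    unfold tupPolyK at h
    rw [map_prod] at h
    obtain ⟨t, _, ht⟩ := Finset.prod_eq_zero_iff.1 h
    rw [map_prod] at ht
    obtain ⟨g, _, hg⟩ := Finset.prod_eq_zero_iff.1 ht
    rw [lag_eval (hβ _) (β _).2] at hg
    exact hg rfl

end Enc

end Pool.Agent.W964.Wd
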