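import Mathlib
import Pool.Agent.W964.Wd.Etr.Enc

/-!
Systems of polynomial equations whose unknowns take many values are hard for parallel machines.
-/

set_option linter.unusedSectionVars false

namespace Pool.Agent.W964.Wd

open Finset H568R2 H592R3 Pool.Agent.W964.Pram MvPolynomial

/-- Randomized machines whose cells contain polynomials with integer coefficients fail on some
system of polynomial equations in `n` unknowns, each of which has `2 ^ β` possible values. -/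
theorem etr_rand (ε : ℝ) (hε : 0 < ε) (K : ℕ) : ∃ C : ℝ, 1 ≤ C ∧
    ∀ n β T w M : ℕ, 1 ≤ n → 1 ≤ β → 1 ≤ T →
    C * (T * Real.log ((n * β : ℕ) : ℝ) + β) ≤ w → w ≤ n * β → n * 2 ^ w ≤ M →
    ∀ (P : ℕ) (R : RandMachine (MvPolynomial (Fin n) ℤ) (Fin M) P),
      (P : ℝ) ≤ 2 ^ ((1 - ε) * ((n * β : ℕ) : ℝ)) → R.Lists (2 ^ (K * (n * β))) →
      ∃ f : Fin M → MvPolynomial (Fin n) ℤ,
        (∀ c, (f c).totalDegree ≤ w * 2 ^ β ∧ (f c).support.card ≤ 2 ^ w) ∧
        ∀ (F : Type) [Field F] [CharZero F],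
        R.success T f (∃ z : Fin n → F, ∀ c, aeval z (f c) = 0) ≤
          1 / 2 + (2 : ℝ) ^ (-((w : ℝ) / C)) := by
  obtain ⟨ε₁, hε₁⟩ : ∃ ε₁ : ℝ, ε₁ = min ε 1 := ⟨_, rfl⟩
  have hε₁0 : 0 < ε₁ := by rw [hε₁]; exact lt_min hε one_pos
  have hε₁1 : ε₁ ≤ 1 := by rw [hε₁]; exact min_le_right _ _
  have hε₁2 : ε₁ ≤ ε := by rw [hε₁]; exact min_le_left _ _
  obtain ⟨Q, hQ6, C₂, hC₂, H⟩ := gen_rand2 (ε₁ / 2) (by linarith) (2 * K)
  obtain ⟨D, hD⟩ : ∃ D : ℕ, D = ⌈8 / ε₁⌉₊ := ⟨_, rfl⟩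
  have hDge : 8 / ε₁ ≤ D := by rw [hD]; exact Nat.le_ceil _
  have hD8R : (8 : ℝ) ≤ D := by
    refine le_trans ?_ hDge
    rw [le_div_iff₀ hε₁0]
    linarith
  have hD8 : 8 ≤ D := by exact_mod_cast hD8R
  obtain ⟨r, hr⟩ : ∃ r, r = ar Q := ⟨_, rfl⟩
  have hr1 : 1 ≤ r := by rw [hr]; unfold ar; omega
  have hrR : (1 : ℝ) ≤ r := by exact_mod_cast hr1
  obtain ⟨C, hC⟩ : ∃ C : ℝ, C = 4 * C₂ + 8 * r * D + 8 := ⟨_, rfl⟩
  have hrD : (0 : ℝ) ≤ 8 * r * D := by positivity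
  have hC8 : 8 ≤ C := by rw [hC]; linarith
  have hC0 : 0 < C := by linarith
  refine ⟨C, by linarith, ?_⟩
  intro n β T w M hn hβ hT hw hwN hM P R hP hR
  obtain ⟨N, hN⟩ : ∃ N, N = n * β := ⟨_, rfl⟩
  rw [← hN] at hw hwN hP hR
  have hβR : (1 : ℝ) ≤ β := by exact_mod_cast hβ
  have hN1 : 1 ≤ N := by rw [hN]; exact Nat.mul_pos hn hβ
  have hNR1 : (1 : ℝ) ≤ N := by exact_mod_cast hN1
  have hTR : (1 : ℝ) ≤ T := by exact_mod_cast hT
  have hTlog : 0 ≤ (T : ℝ) * Real.log N := mul_nonneg (by linarith) (Real.log_nonneg hNR1)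
  have hwβ : C * β ≤ w := by
    refine le_trans ?_ hw
    apply mul_le_mul_of_nonneg_left _ hC0.le
    linarith
  have hw8 : 8 ≤ w := by
    have : (8 : ℝ) ≤ w := by nlinarith
    exact_mod_cast this
  -- the parameters
  obtain ⟨N₀, hN₀⟩ : ∃ N₀, N₀ = N / D := ⟨_, rfl⟩
  obtain ⟨N', hN'⟩ : ∃ N', N' = N - N₀ := ⟨_, rfl⟩
  have hND : N₀ ≤ N / 8 := by
    rw [hN₀]
    exact Nat.div_le_div_left hD8 (by norm_num)
  have hN'2 : N ≤ 2 * N' := by omega
  have hN'le : N' ≤ N := by omega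
  have hN'2' : 2 ≤ N' := by omega
  obtain ⟨w', hw'⟩ : ∃ w', w' = w / 2 := ⟨_, rfl⟩
  have hw'1 : w ≤ 2 * w' + 1 := by omega
  have hw'N : w' ≤ N' := by omega
  have hw'R : (w : ℝ) ≤ 2 * w' + 1 := by exact_mod_cast hw'1
  have hN'R : (N' : ℝ) ≤ N := by exact_mod_cast hN'le
  have hN'2R : (2 : ℝ) ≤ N' := by exact_mod_cast hN'2'
  have hNN' : (N : ℝ) ≤ 2 * N' := by exact_mod_cast hN'2
  have hlog' : Real.log N' ≤ Real.log N := Real.log_le_log (by linarith) hN'R
  have hwR8 : (8 : ℝ) ≤ w := by exact_mod_cast hw8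
  have hcond : C₂ * (T * Real.log N') ≤ w' := by
    have h1 : (T : ℝ) * Real.log N' ≤ T * Real.log N :=
      mul_le_mul_of_nonneg_left hlog' (by linarith)
    have h2 : C₂ * (T * Real.log N') ≤ C₂ * (T * Real.log N) :=
      mul_le_mul_of_nonneg_left h1 hC₂.le
    have h3 : 4 * C₂ * (T * Real.log N) ≤ C * (T * Real.log N) := by
      apply mul_le_mul_of_nonneg_right _ hTlog
      rw [hC]; linarith
    have h4 : C * (T * Real.log N) + C * β ≤ w := by
      rw [← mul_add]; exact hw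
    have h5 : (8 : ℝ) ≤ C * β := by nlinarith
    have h6 : 0 ≤ C₂ * (T * Real.log N) := mul_nonneg hC₂.le hTlog
    linarith
  obtain ⟨b, m', hb, hm', hBw, hQn, hwb, s, hs, H2⟩ := H N' T w' hN'2' hT hcond hw'N
  rw [← hr] at hBw hwb
  obtain ⟨ℓ, hℓ⟩ : ∃ ℓ, ℓ = 2 * (3 * T) * b := ⟨_, rfl⟩
  rw [← hℓ] at hBw hQn
  have hwb' : w' ≤ 4 * r * ℓ := by
    refine hwb.trans (le_of_eq ?_)
    rw [hℓ]; ring
  -- the number of unknowns for one hidden variable
  have hβℓ : β * D ≤ ℓ := by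
    have h1 : (w' : ℝ) ≤ 4 * r * ℓ := by exact_mod_cast hwb'
    have h2 : 8 * (r : ℝ) * (β * D) ≤ 8 * r * ℓ := by
      have h3 : (8 * (r : ℝ) * D + 8) * β ≤ w := by
        refine le_trans ?_ hwβ
        apply mul_le_mul_of_nonneg_right _ (by linarith)
        rw [hC]; linarith
      have h5 : 8 * (r : ℝ) * (β * D) + 8 * β = (8 * (r : ℝ) * D + 8) * β := by ring
      linarith
    have h4 : (β : ℝ) * D ≤ ℓ := le_of_mul_le_mul_left h2 (by positivity)
    exact_mod_cast h4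
  have hβle : β ≤ ℓ := (Nat.le_mul_of_pos_right β (by omega)).trans hβℓ
  obtain ⟨G, hG⟩ : ∃ G, G = (ℓ + β - 1) / β := ⟨_, rfl⟩
  have hG1 : G * β ≤ ℓ + β - 1 := by rw [hG]; exact Nat.div_mul_le_self _ _
  have hG2 : ℓ ≤ β * G := by
    have h1 := Nat.lt_mul_div_succ (ℓ + β - 1) (show 0 < β by omega)
    rw [← hG] at h1
    have h2 : β * (G + 1) = β * G + β := by ring
    omega
  have hG0 : 1 ≤ G := by
    rcases Nat.eq_zero_or_pos G with h | h
    · rw [h, mul_zero] at hG2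
      omega
    · exact h
  have hrβ : w' + r * β ≤ w := by
    have h1 : (8 : ℝ) * (r * β) ≤ w := by
      refine le_trans ?_ hwβ
      have h3 : 8 * (r : ℝ) ≤ C := by
        have h4 : 8 * (r : ℝ) * 1 ≤ 8 * r * D :=
          mul_le_mul_of_nonneg_left (by linarith) (by positivity)
        rw [hC]; linarith
      calc (8 : ℝ) * (r * β) = 8 * r * β := by ring
        _ ≤ C * β := mul_le_mul_of_nonneg_right h3 (by linarith)
    have h2 : 8 * (r * β) ≤ w := by exact_mod_cast h1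
    omega
  have hrG : r * (β * G) ≤ w - 1 := by
    have h1 : β * G ≤ ℓ + β := by
      rw [mul_comm]; omega
    have h2 : r * (β * G) ≤ r * (ℓ + β) := Nat.mul_le_mul_left _ h1
    have h3 : r * (ℓ + β) = r * ℓ + r * β := by ring
    omega
  have hQG : Q * m' * G ≤ n := by
    have h1 : Q * m' * β * D ≤ N := by
      calc Q * m' * β * D = Q * m' * (β * D) := by ring
        _ ≤ Q * m' * (ℓ + 1) := Nat.mul_le_mul_left _ (by omega)
        _ ≤ N' := hQn
        _ ≤ N := hN'le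
    have h2 : Q * m' * β ≤ N₀ := by
      rw [hN₀]
      exact (Nat.le_div_iff_mul_le (by omega)).2 h1
    have h3 : Q * m' * G * β ≤ n * β := by
      rw [← hN]
      calc Q * m' * G * β = Q * m' * (G * β) := by ring
        _ ≤ Q * m' * ((ℓ + 1) + β) := Nat.mul_le_mul_left _ (by omega)
        _ = Q * m' * (ℓ + 1) + Q * m' * β := by ring
        _ ≤ N' + N₀ := Nat.add_le_add hQn h2
        _ = N := by omega
    exact Nat.le_of_mul_le_mul_right h3 (by omega)
  have hQn2 : Q * m' ≤ n := le_trans (Nat.le_mul_of_pos_right _ (by omega)) hQG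
  -- the number of processors and the lengths of the lists
  have hP' : (P : ℝ) ≤ 2 ^ ((1 - ε₁ / 2) * N') := by
    refine hP.trans (Real.rpow_le_rpow_of_exponent_le (by norm_num) ?_)
    have h1 : (N₀ : ℝ) ≤ N / D := by
      rw [hN₀]
      exact Nat.cast_div_le
    have h2 : (N : ℝ) / D ≤ N * (ε₁ / 8) := by
      rw [div_le_iff₀ (by linarith)]
      have h3 : 8 ≤ D * ε₁ := by
        rw [div_le_iff₀ hε₁0] at hDge
        exact hDge
      nlinarith
    have h3 : (N : ℝ) * (1 - ε₁ / 8) ≤ N' := by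
      have h4 : (N : ℝ) ≤ N' + N₀ := by
        have : N ≤ N' + N₀ := by omega
        exact_mod_cast this
      linarith
    have h5 : (0 : ℝ) ≤ 1 - ε₁ / 2 := by linarith
    have h6 : (1 - ε₁ / 2) * ((N : ℝ) * (1 - ε₁ / 8)) ≤ (1 - ε₁ / 2) * N' :=
      mul_le_mul_of_nonneg_left h3 h5
    have h7 : (1 - ε) * (N : ℝ) ≤ (1 - ε₁) * N :=
      mul_le_mul_of_nonneg_right (by linarith) (by linarith)
    have h8 : (1 - ε₁) * (N : ℝ) ≤ (1 - ε₁ / 2) * (N * (1 - ε₁ / 8)) := by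
      have h9 : 0 ≤ (N : ℝ) * ε₁ := by positivity
      nlinarith
    linarith
  have hR' : R.Lists (2 ^ (2 * K * N')) := by
    intro ω q
    refine (hR ω q).trans (Nat.pow_le_pow_right (by norm_num) ?_)
    calc K * N ≤ K * (2 * N') := Nat.mul_le_mul_left _ hN'2
      _ = 2 * K * N' := by ring
  -- the encoding
  obtain ⟨e⟩ : Nonempty ((Fin (Q * m') × Fin G) ↪ Fin n) := by
    apply Function.Embedding.nonempty_of_card_le
    rw [Fintype.card_prod, Fintype.card_fin, Fintype.card_fin, Fintype.card_fin]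
    exact hQG
  obtain ⟨dec, hdec⟩ : ∃ dec : (Fin G → Fin (2 ^ β)) → Fin (dom T b),
      Function.Surjective dec := by
    have hne : Nonempty (Fin (dom T b)) := ⟨⟨0, by unfold dom; positivity⟩⟩
    obtain ⟨g⟩ : Nonempty (Fin (dom T b) ↪ (Fin G → Fin (2 ^ β))) := by
      apply Function.Embedding.nonempty_of_card_le
      rw [Fintype.card_fun, Fintype.card_fin, Fintype.card_fin, Fintype.card_fin]
      unfold dom
      rw [← hℓ, ← pow_mul]
      exact Nat.pow_le_pow_right (by norm_num) hG2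
    exact ⟨Function.invFun g, Function.invFun_surjective g.injective⟩
  have hcard1 : ((2 ^ β) ^ G) ^ r ≤ 2 ^ (w - 1) := by
    rw [← pow_mul, ← pow_mul]
    apply Nat.pow_le_pow_right (by norm_num)
    calc β * (G * r) = r * (β * G) := by ring
      _ ≤ w - 1 := hrG
  have h2w : 2 ^ (w - 1) * 2 = 2 ^ w := by
    rw [← pow_succ]; congr 1; omega
  have h2w1 : 1 ≤ 2 ^ (w - 1) := Nat.one_le_two_pow
  obtain ⟨π, hπ⟩ : ∃ π : Fin M → (Fin (Q * m') × (Fin (ar Q) → Fin G → Fin (2 ^ β))) ⊕ Fin n,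
      Function.Surjective π := by
    have : Nonempty ((Fin (Q * m') × (Fin (ar Q) → Fin G → Fin (2 ^ β))) ⊕ Fin n) :=
      ⟨Sum.inr ⟨0, hn⟩⟩
    obtain ⟨g⟩ : Nonempty (((Fin (Q * m') × (Fin (ar Q) → Fin G → Fin (2 ^ β))) ⊕ Fin n) ↪
        Fin M) := by
      apply Function.Embedding.nonempty_of_card_le
      rw [Fintype.card_sum, Fintype.card_prod, Fintype.card_fun, Fintype.card_fun,
        Fintype.card_fin, Fintype.card_fin, Fintype.card_fin, Fintype.card_fin, Fintype.card_fin,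
        Fintype.card_fin, ← hr]
      refine le_trans ?_ hM
      have h1 : Q * m' * ((2 ^ β) ^ G) ^ r ≤ n * 2 ^ (w - 1) := Nat.mul_le_mul hQn2 hcard1
      have h2 : n ≤ n * 2 ^ (w - 1) := Nat.le_mul_of_pos_right _ h2w1
      rw [← h2w, ← mul_assoc]
      omega
    exact ⟨Function.invFun g, Function.invFun_surjective g.injective⟩
  obtain ⟨X, hX⟩ := H2 (MvPolynomial (Fin n) ℤ) (Fin M) (fun Y => sysOfK s e dec π Y)
    (fun c => sysK_one s e dec π c) P R hP' hR'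
  have hβw : β + 1 ≤ w := by
    have h1 : (8 : ℝ) * β ≤ w := by
      refine le_trans ?_ hwβ
      exact mul_le_mul_of_nonneg_right hC8 (by linarith)
    have h2 : 8 * β ≤ w := by exact_mod_cast h1
    omega
  refine ⟨sysOfK s e dec π X, fun c => ⟨?_, ?_⟩, ?_⟩
  · apply sysK_degree s e dec π _ _ X c
    · rw [← hr, ← mul_assoc]
      apply Nat.mul_le_mul_right
      calc r * G ≤ r * (β * G) := Nat.mul_le_mul_left _ (Nat.le_mul_of_pos_left _ (by omega))
        _ ≤ w := by omega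
    · exact Nat.le_mul_of_pos_left _ (by omega)
  · apply sysK_support s e dec π _ _ X c
    · rw [← hr]
      exact hcard1.trans (Nat.pow_le_pow_right (by norm_num) (by omega))
    · calc 2 ^ β + 1 ≤ 2 ^ β + 2 ^ β := Nat.add_le_add_left Nat.one_le_two_pow _
        _ = 2 ^ (β + 1) := by rw [pow_succ]; ring
        _ ≤ 2 ^ w := Nat.pow_le_pow_right (by norm_num) hβw
  · intro F _ _
    rw [← sysK_sat (F := F) s e dec π (by positivity) hdec hπ X]
    refine hX.trans ?_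
    have h1 : (2 : ℝ) ^ (-((w' : ℝ) / C₂)) ≤ 2 ^ (-((w : ℝ) / C)) := by
      apply Real.rpow_le_rpow_of_exponent_le (by norm_num)
      rw [neg_le_neg_iff, div_le_div_iff₀ hC0 hC₂]
      have h2 : (w : ℝ) ≤ 4 * w' := by linarith
      have h3 : 4 * C₂ ≤ C := by rw [hC]; linarith
      have hw'0 : (0 : ℝ) ≤ w' := Nat.cast_nonneg _
      calc (w : ℝ) * C₂ ≤ 4 * w' * C₂ := mul_le_mul_of_nonneg_right h2 hC₂.le
        _ = w' * (4 * C₂) := by ring
        _ ≤ w' * C := mul_le_mul_of_nonneg_left h3 hw'0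
    linarith

end Pool.Agent.W964.Wd
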