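import Mathlib
import Pool.Agent.W964.Wd.Etr.Rand
import Pool.Agent.W964.Wd.Alt.Main

/-!
Guessed real numbers and guessed bits: parallel machines with guesses and systems of polynomial
equations.
-/

set_option linter.unusedSectionVars false

namespace Pool.Agent.W964.Wd

open Finset Filter H568R2 H592R3 SmallDepth Pool.Agent.W964.Pram MvPolynomial

/-- Randomized alternating machines with few guesses fail on some system of equations. -/
theorem etr_alt (ε : ℝ) (hε : 0 < ε) (K : ℕ) : ∃ C : ℝ, 1 ≤ C ∧
    ∀ (n β T w M : ℕ) (L : List (Bool × ℕ)), 1 ≤ n → 1 ≤ β → 1 ≤ T → (∀ qb ∈ L, 1 ≤ qb.2) →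
    C * (((T + L.length : ℕ) : ℝ) * Real.log ((n * β : ℕ) : ℝ) + β) ≤ w → w ≤ n * β →
    n * 2 ^ w ≤ M →
    ∀ (P : ℕ) (R : RAMachine (MvPolynomial (Fin n) ℤ) (Fin M) P L),
      ((total L * (P + L.length * (M + 1)) : ℕ) : ℝ) ≤ 2 ^ ((1 - ε) * ((n * β : ℕ) : ℝ)) →
      R.Lists (2 ^ (K * (n * β))) →
      ∃ f : Fin M → MvPolynomial (Fin n) ℤ,
        (∀ c, (f c).totalDegree ≤ w * 2 ^ β ∧ (f c).support.card ≤ 2 ^ w) ∧
        ∀ (F : Type) [Field F] [CharZero F],
        R.success T f (∃ z : Fin n → F, ∀ c, aeval z (f c) = 0) ≤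
          1 / 2 + (2 : ℝ) ^ (-((w : ℝ) / C)) := by
  obtain ⟨C, hC1, H⟩ := etr_rand ε hε (K + 1)
  have hC : 0 < C := by linarith
  refine ⟨2 * C, by linarith, ?_⟩
  intro n β T w M L hn hβ hT hL hw hwn hM P R hP hR
  have hN1 : 1 ≤ n * β := Nat.mul_pos hn hβ
  have hNR : (1 : ℝ) ≤ ((n * β : ℕ) : ℝ) := by exact_mod_cast hN1
  have hlog : 0 ≤ Real.log ((n * β : ℕ) : ℝ) := Real.log_nonneg hNR
  have hPle : altP (Fintype.card (Fin M)) L P ≤ total L * (P + L.length * (M + 1)) := by
    rw [Fintype.card_fin]
    exact altP_le _ L hL P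
  have htot : total L ≤ 2 ^ (n * β) := by
    cases L with
    | nil =>
      show total [] ≤ 2 ^ (n * β)
      have : total [] = 1 := rfl
      rw [this]
      exact Nat.one_le_two_pow
    | cons qb L =>
      have h1 : (total (qb :: L) : ℝ) ≤ 2 ^ ((1 - ε) * ((n * β : ℕ) : ℝ)) := by
        refine le_trans ?_ hP
        have h2 : 1 ≤ P + (qb :: L).length * (M + 1) := by
          rw [List.length_cons]
          have : 1 ≤ (L.length + 1) * (M + 1) := Nat.mul_pos (by omega) (by omega)
          omega
        exact_mod_cast Nat.le_mul_of_pos_right _ h2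
      have h2 : (2 : ℝ) ^ ((1 - ε) * ((n * β : ℕ) : ℝ)) ≤ 2 ^ (((n * β : ℕ) : ℝ)) := by
        apply Real.rpow_le_rpow_of_exponent_le (by norm_num)
        nlinarith
      have h3 : (total (qb :: L) : ℝ) ≤ ((2 ^ (n * β) : ℕ) : ℝ) := by
        refine (h1.trans h2).trans (le_of_eq ?_)
        rw [Real.rpow_natCast]
        push_cast
        rfl
      exact_mod_cast h3
  choose Nm hNm1 hNm2 using fun ω => alt_elim L hL (R.mach ω) (hR ω) T
  obtain ⟨f, hf1, hf2⟩ := H n β (T + 2 * L.length) w M hn hβ (by omega) (by
      refine le_trans ?_ hw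
      have h1 : ((T + 2 * L.length : ℕ) : ℝ) ≤ 2 * ((T + L.length : ℕ) : ℝ) := by
        push_cast
        have : (0 : ℝ) ≤ T := Nat.cast_nonneg _
        linarith
      have h2 : ((T + 2 * L.length : ℕ) : ℝ) * Real.log ((n * β : ℕ) : ℝ) ≤
          2 * ((T + L.length : ℕ) : ℝ) * Real.log ((n * β : ℕ) : ℝ) :=
        mul_le_mul_of_nonneg_right h1 hlog
      have h3 : (0 : ℝ) ≤ β := Nat.cast_nonneg _
      calc C * (((T + 2 * L.length : ℕ) : ℝ) * Real.log ((n * β : ℕ) : ℝ) + β)
          ≤ C * (2 * ((T + L.length : ℕ) : ℝ) * Real.log ((n * β : ℕ) : ℝ) + 2 * β) := by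
            apply mul_le_mul_of_nonneg_left _ hC.le
            linarith
        _ = 2 * C * (((T + L.length : ℕ) : ℝ) * Real.log ((n * β : ℕ) : ℝ) + β) := by ring)
    hwn hM (altP (Fintype.card (Fin M)) L P)
    { Ω := R.Ω, fin := R.fin, prob := R.prob, nonneg := R.nonneg, total := R.total, mach := Nm }
    (by
      refine le_trans ?_ hP
      exact_mod_cast hPle) (by
      intro ω q
      refine (hNm1 ω q).trans (max_le ?_ ?_)
      · exact Nat.pow_le_pow_right (by norm_num) (Nat.mul_le_mul_right _ (by omega))
      · refine htot.trans (Nat.pow_le_pow_right (by norm_num) ?_)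
        exact Nat.le_mul_of_pos_left _ (by omega))
  refine ⟨f, hf1, ?_⟩
  intro F _ _
  have h1 : R.success T f (∃ z : Fin n → F, ∀ c, aeval z (f c) = 0) =
      RandMachine.success { Ω := R.Ω, fin := R.fin, prob := R.prob, nonneg := R.nonneg, total := R.total, mach := Nm } (T + 2 * L.length) f
        (∃ z : Fin n → F, ∀ c, aeval z (f c) = 0) := by
    unfold RAMachine.success RandMachine.success
    refine Finset.sum_congr rfl fun ω _ => ?_
    dsimp only
    rw [hNm2]
  rw [h1]
  refine (hf2 F).trans ?_
  have h2 : (2 : ℝ) ^ (-((w : ℝ) / C)) ≤ 2 ^ (-((w : ℝ) / (2 * C))) := by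
    apply Real.rpow_le_rpow_of_exponent_le (by norm_num)
    rw [neg_le_neg_iff]
    exact div_le_div_of_nonneg_left (Nat.cast_nonneg w) hC (by linarith)
  linarith

/-- The states of the processors that check a guessed point. -/
inductive ZkQ (F : Type) (n M : ℕ) : Type
  | test (c : Fin M) (z : Fin n → F) : ZkQ F n M
  | done (β : Bool) : ZkQ F n M

open Classical in
/-- A machine that checks a guessed point. -/
@[reducible] noncomputable def zchecker (F : Type) [Field F] (n M : ℕ) :
    Guess (MvPolynomial (Fin n) ℤ) (Fin M) M (Fin n → F) where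
  base :=
    { Q := ZkQ F n M
      A := Unit
      V := MvPolynomial (Fin n) ℤ ⊕ Bool
      word := Sum.inl
      blank := Sum.inr true
      start := fun _ => ZkQ.done true
      query := fun q => match q with
        | ZkQ.test c _ => [Sum.inl c]
        | ZkQ.done _ => []
      test := fun q v => match q, v with
        | ZkQ.test _ z, Sum.inl f => decide (aeval z f = 0)
        | _, _ => false
      next := fun q o => match q with
        | ZkQ.test _ _ => ZkQ.done o.isSome
        | ZkQ.done β => ZkQ.done β
      write := fun q => match q with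
        | ZkQ.done false => some (Sum.inr (), Sum.inr false)
        | _ => none
      out := Sum.inr ()
      accept := fun v => match v with
        | Sum.inr b => b
        | Sum.inl _ => false }
  init := fun z p => ZkQ.test p z

lemma zchecker_answer {F : Type} [Field F] (n M : ℕ) (z : Fin n → F)
    (f : Fin M → MvPolynomial (Fin n) ℤ) :
    ((zchecker F n M).fix z).answer 1 f = true ↔ ∀ c, aeval z (f c) = 0 := by
  classical
  have h1 : ∀ p : Fin M, (((zchecker F n M).fix z).run f (0 + 1)).1 p =
      ZkQ.done (decide (aeval z (f p) = 0)) := by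
    intro p
    rw [Machine.run_states, Machine.run_zero]
    show ZkQ.done (Option.isSome _) = _
    congr 1
    rw [Bool.eq_iff_iff, decide_eq_true_iff]
    unfold Machine.find
    rw [List.findSome?_isSome_iff]
    show (∃ c ∈ [Sum.inl p], _) ↔ _
    constructor
    · rintro ⟨c, hc, hc2⟩
      rw [List.mem_singleton] at hc
      subst hc
      split_ifs at hc2 with h
      · exact of_decide_eq_true h
      · exact absurd hc2 (by simp)
    · intro hv
      refine ⟨Sum.inl p, List.mem_singleton_self _, ?_⟩
      split_ifs with h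
      · rfl
      · exact absurd (decide_eq_true hv) h
  show ((zchecker F n M).fix z).accept
    ((((zchecker F n M).fix z).run f (0 + 1)).2 (Sum.inr ())) = true ↔ _
  constructor
  · intro h c
    by_contra hcon
    have h2 : (((zchecker F n M).fix z).run f (0 + 1)).2 (Sum.inr ()) = Sum.inr false := by
      apply Machine.mem_some
      · refine ⟨c, ?_⟩
        rw [h1]
        have h3 : decide (aeval z (f c) = 0) = false := decide_eq_false hcon
        rw [h3, Machine.wr_of (c' := Sum.inr ()) (v := Sum.inr false) rfl, if_pos rfl]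
      · intro p v' hv'
        rw [h1] at hv'
        cases hd : decide (aeval z (f p) = 0) with
        | true =>
          rw [hd, Machine.wr_none_of rfl] at hv'
          exact absurd hv' (by simp)
        | false =>
          rw [hd, Machine.wr_of (c' := Sum.inr ()) (v := Sum.inr false) rfl, if_pos rfl,
            Option.some.injEq] at hv'
          exact hv'.symm
    rw [h2] at h
    have h5 : (false : Bool) = true := h
    exact absurd h5 (by simp)
  · intro h
    rw [Machine.mem_none]
    · rfl
    · intro p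
      rw [h1]
      have h3 : decide (aeval z (f p) = 0) = true := decide_eq_true (h p)
      rw [h3]
      exact Machine.wr_none_of rfl

/-- With guessed field elements one step suffices. -/
theorem etr_upper (F : Type) [Field F] (n M : ℕ) :
    ∃ G : Guess (MvPolynomial (Fin n) ℤ) (Fin M) M (Fin n → F), G.base.Lists 1 ∧
      ∀ f, ((∃ z, (G.fix z).answer 1 f = true) ↔ ∃ z : Fin n → F, ∀ c, aeval z (f c) = 0) := by
  classical
  refine ⟨zchecker F n M, ?_, ?_⟩
  · intro q
    cases q with
    | test c z => exact le_of_eq rfl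
    | done β => exact Nat.zero_le _
  · intro f
    constructor
    · rintro ⟨z, hz⟩
      exact ⟨z, (zchecker_answer n M z f).1 hz⟩
    · rintro ⟨z, hz⟩
      exact ⟨z, (zchecker_answer n M z f).2 hz⟩

end Pool.Agent.W964.Wd
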