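import Mathlib
import Pool.Agent.W964.Wd.Etr.Alt

/-!
Guessed real numbers and guessed bits: the asymptotic form.
-/

set_option linter.unusedSectionVars false

namespace Pool.Agent.W964.Wd

open Finset Filter MvPolynomial

lemma mul_succ_le_two_pow (B : ℕ) : ∀ t, 2 * B + 4 ≤ t → B * (t + 1) ≤ 2 ^ t := by
  intro t ht
  induction t, ht using Nat.le_induction with
  | base =>
    have h1 : B < 2 ^ B := Nat.lt_two_pow_self
    have h2 : 2 ^ (2 * B + 4) = 16 * (2 ^ B * 2 ^ B) := by
      rw [← pow_add, show 2 * B + 4 = (B + B) + 4 by ring, pow_add]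
      ring
    rw [h2]
    nlinarith
  | succ t ht ih =>
    rw [pow_succ]
    have h1 : B ≤ B * (t + 1) := Nat.le_mul_of_pos_right _ (by omega)
    have h2 : B * (t + 1 + 1) = B * (t + 1) + B := by ring
    omega

/-- For every `A` and `K` there is `C`: machines with `n ^ (A n)` processors and guesses fail on
systems with `n ^ (C T)` equations in `n` unknowns. -/
theorem etr_asym (A K : ℕ) : ∃ C : ℕ, 1 ≤ C ∧ ∀ (n T : ℕ) (L : List (Bool × ℕ)),
    1 ≤ T → C * T ≤ n → L.length ≤ T → (∀ qb ∈ L, 1 ≤ qb.2) →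
    ∀ (P : ℕ) (R : RAMachine (MvPolynomial (Fin n) ℤ) (Fin (n ^ (C * T))) P L), 1 ≤ P →
      total L * P ≤ n ^ (A * n) → R.Lists (n ^ (K * n)) →
      ∃ f : Fin (n ^ (C * T)) → MvPolynomial (Fin n) ℤ,
        (∀ c, (f c).totalDegree ≤ n ^ C ∧ (f c).support.card ≤ n ^ (C * T)) ∧
        ∀ (F : Type) [Field F] [CharZero F],
        R.success T f (∃ z : Fin n → F, ∀ c, aeval z (f c) = 0) ≤ 1 / 2 + 1 / (n : ℝ) ^ T := by
  obtain ⟨C₀, hC₀, H⟩ := etr_alt (1 / 2) (by norm_num) K
  obtain ⟨B, hB⟩ : ∃ B, B = 2 * (A + 3) := ⟨_, rfl⟩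
  obtain ⟨C₁, hC₁⟩ : ∃ C₁ : ℕ, C₁ = ⌈C₀⌉₊ * (4 + B) := ⟨_, rfl⟩
  obtain ⟨E, hE⟩ : ∃ E : ℕ, E = 2 ^ (2 * B + 4) := ⟨_, rfl⟩
  obtain ⟨C, hC⟩ : ∃ C : ℕ, C = 2 * C₁ + 2 * B + 3 + E := ⟨_, rfl⟩
  refine ⟨C, by omega, ?_⟩
  intro n T L hT hCT hLT hL P R hP1 hP hR
  have h2p : 1 ≤ E := by rw [hE]; exact Nat.one_le_two_pow
  have hCn : C ≤ n := (Nat.le_mul_of_pos_right _ (by omega)).trans hCT
  have hTn : T ≤ n := (Nat.le_mul_of_pos_left _ (by omega)).trans hCT
  have hn2 : 2 ≤ n := by omega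
  obtain ⟨lam, hlam⟩ : ∃ lam, lam = Nat.log 2 n + 1 := ⟨_, rfl⟩
  have hlam1 : n ≤ 2 ^ lam := by
    rw [hlam]
    exact (Nat.lt_pow_succ_log_self (by norm_num) n).le
  have hlam2 : 2 ^ lam ≤ n ^ 2 := by
    rw [hlam, pow_succ, pow_two]
    exact Nat.mul_le_mul (Nat.pow_log_le_self 2 (by omega)) hn2
  have hlam0 : 1 ≤ lam := by omega
  have hBn : B * lam ≤ n := by
    have h1 : 2 * B + 4 ≤ Nat.log 2 n := by
      apply Nat.le_log_of_pow_le (by norm_num)
      rw [← hE]
      omega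
    rw [hlam]
    exact (mul_succ_le_two_pow B _ h1).trans (Nat.pow_log_le_self 2 (by omega))
  obtain ⟨β, hβ⟩ : ∃ β, β = B * lam := ⟨_, rfl⟩
  have hβ1 : 1 ≤ β := by rw [hβ]; exact Nat.mul_pos (by omega) hlam0
  have hβn : β ≤ n := by rw [hβ]; exact hBn
  obtain ⟨w, hw⟩ : ∃ w, w = C₁ * (T * lam) := ⟨_, rfl⟩
  have h2w : 2 ^ w ≤ n ^ (2 * C₁ * T) := by
    calc 2 ^ w = (2 ^ lam) ^ (C₁ * T) := by
          rw [hw, ← pow_mul]
          congr 1
          ring
      _ ≤ (n ^ 2) ^ (C₁ * T) := Nat.pow_le_pow_left hlam2 _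
      _ = n ^ (2 * C₁ * T) := by
          rw [← pow_mul]
          congr 1
          ring
  have hwn : w ≤ n * β := by
    rw [hw, hβ]
    have h1 : C₁ * T ≤ n * B := by
      have h2 : C₁ * T ≤ C * T := Nat.mul_le_mul_right _ (by omega)
      exact (h2.trans hCT).trans (Nat.le_mul_of_pos_right _ (by omega))
    calc C₁ * (T * lam) = C₁ * T * lam := by ring
      _ ≤ n * B * lam := Nat.mul_le_mul_right _ h1
      _ = n * (B * lam) := by ring
  have hnR : (2 : ℝ) ≤ n := by exact_mod_cast hn2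
  have hTR : (1 : ℝ) ≤ T := by exact_mod_cast hT
  have hlamR : (1 : ℝ) ≤ lam := by exact_mod_cast hlam0
  have hC₀le : C₀ * (4 + B) ≤ C₁ := by
    rw [hC₁]
    push_cast
    exact mul_le_mul_of_nonneg_right (Nat.le_ceil _) (by positivity)
  have hlogn : Real.log n ≤ lam := by
    have h1 : Real.log n ≤ Real.log ((2 : ℝ) ^ lam) := by
      apply Real.log_le_log (by linarith)
      exact_mod_cast hlam1
    rw [Real.log_pow] at h1
    have h2 := Real.log_two_lt_d9
    nlinarith
  have hlognβ : Real.log ((n * β : ℕ) : ℝ) ≤ 2 * lam := by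
    have h1 : ((n * β : ℕ) : ℝ) ≤ (n : ℝ) ^ 2 := by
      have : n * β ≤ n ^ 2 := by
        rw [pow_two]
        exact Nat.mul_le_mul_left _ hβn
      exact_mod_cast this
    have h2 : (0 : ℝ) < ((n * β : ℕ) : ℝ) := by
      have : 0 < n * β := Nat.mul_pos (by omega) (by omega)
      exact_mod_cast this
    have h3 := Real.log_le_log h2 h1
    rw [Real.log_pow] at h3
    push_cast at h3 ⊢
    linarith
  have hTlam : (1 : ℝ) ≤ T * lam := by nlinarith
  have hwcond : C₀ * (((T + L.length : ℕ) : ℝ) * Real.log ((n * β : ℕ) : ℝ) + β) ≤ w := by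
    have h1 : ((T + L.length : ℕ) : ℝ) ≤ 2 * T := by
      have : T + L.length ≤ 2 * T := by omega
      exact_mod_cast this
    have h2 : ((T + L.length : ℕ) : ℝ) * Real.log ((n * β : ℕ) : ℝ) ≤ (2 * T) * (2 * lam) := by
      have h3 : 0 ≤ Real.log ((n * β : ℕ) : ℝ) := by
        apply Real.log_nonneg
        have : 1 ≤ n * β := Nat.mul_pos (by omega) (by omega)
        exact_mod_cast this
      exact mul_le_mul h1 hlognβ h3 (by positivity)
    have h4 : (β : ℝ) ≤ B * (T * lam) := by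
      rw [hβ]
      push_cast
      apply mul_le_mul_of_nonneg_left _ (Nat.cast_nonneg B)
      nlinarith
    have h5 : C₀ * (((T + L.length : ℕ) : ℝ) * Real.log ((n * β : ℕ) : ℝ) + β) ≤
        C₀ * ((4 + B) * (T * lam)) := by
      apply mul_le_mul_of_nonneg_left _ (by linarith)
      linarith
    refine h5.trans ?_
    rw [hw]
    push_cast
    rw [← mul_assoc]
    exact mul_le_mul_of_nonneg_right hC₀le (by linarith)
  have hM : n * 2 ^ w ≤ n ^ (C * T) := by
    calc n * 2 ^ w ≤ n * n ^ (2 * C₁ * T) := Nat.mul_le_mul_left _ h2w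
      _ = n ^ (2 * C₁ * T + 1) := by rw [pow_succ, mul_comm]
      _ ≤ n ^ (C * T) := by
        apply Nat.pow_le_pow_right (by omega)
        have h1 : (2 * C₁ + 1) * T ≤ C * T := Nat.mul_le_mul_right _ (by omega)
        have h2 : (2 * C₁ + 1) * T = 2 * C₁ * T + T := by ring
        omega
  have hMn : n ^ (C * T) ≤ n ^ n := Nat.pow_le_pow_right (by omega) hCT
  have hnn : n ≤ n ^ n := Nat.le_self_pow (by omega) n
  have hproc : total L * (P + L.length * (n ^ (C * T) + 1)) ≤ n ^ ((A + 3) * n) := by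
    have h1 : P + L.length * (n ^ (C * T) + 1) ≤ P * n ^ (3 * n) := by
      have h2 : L.length * (n ^ (C * T) + 1) ≤ n * (n ^ n + 1) :=
        Nat.mul_le_mul (hLT.trans hTn) (by omega)
      have h3 : n ^ (3 * n) = n ^ n * (n ^ n * n ^ n) := by
        rw [show 3 * n = n + (n + n) by ring, pow_add, pow_add]
      have h4 : 1 + n * (n ^ n + 1) ≤ n ^ (3 * n) := by
        rw [h3]
        obtain ⟨y, hy⟩ : ∃ y, y = n ^ n := ⟨_, rfl⟩
        rw [← hy] at hnn ⊢
        have hy2 : 4 ≤ y := by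
          rw [hy]
          calc 4 = 2 ^ 2 := by norm_num
            _ ≤ n ^ 2 := Nat.pow_le_pow_left hn2 2
            _ ≤ n ^ n := Nat.pow_le_pow_right (by omega) hn2
        have h5 : n * (y + 1) ≤ y * (y + 1) := Nat.mul_le_mul_right _ hnn
        have h6 : y * (y + 1) = y * y + y := by ring
        have h7 : 4 * (y * y) ≤ y * (y * y) := Nat.mul_le_mul_right _ hy2
        have h8 : 4 * y ≤ y * y := Nat.mul_le_mul_right _ hy2
        omega
      calc P + L.length * (n ^ (C * T) + 1) ≤ P * 1 + P * (n * (n ^ n + 1)) := by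
            have h5 : L.length * (n ^ (C * T) + 1) ≤ P * (n * (n ^ n + 1)) :=
              h2.trans (Nat.le_mul_of_pos_left _ hP1)
            omega
        _ = P * (1 + n * (n ^ n + 1)) := by ring
        _ ≤ P * n ^ (3 * n) := Nat.mul_le_mul_left _ h4
    calc total L * (P + L.length * (n ^ (C * T) + 1)) ≤ total L * (P * n ^ (3 * n)) :=
          Nat.mul_le_mul_left _ h1
      _ = total L * P * n ^ (3 * n) := by ring
      _ ≤ n ^ (A * n) * n ^ (3 * n) := Nat.mul_le_mul_right _ hP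
      _ = n ^ ((A + 3) * n) := by
        rw [← pow_add]
        congr 1
        ring
  obtain ⟨f, hf1, hf2⟩ := H n β T w (n ^ (C * T)) L (by omega) hβ1 hT hL hwcond hwn hM P R (by
      have e : (1 - 1 / 2) * ((n * β : ℕ) : ℝ) = ((lam * ((A + 3) * n) : ℕ) : ℝ) := by
        rw [hβ, hB]
        push_cast
        ring
      rw [e, Real.rpow_natCast]
      have h1 : total L * (P + L.length * (n ^ (C * T) + 1)) ≤ 2 ^ (lam * ((A + 3) * n)) := by
        refine hproc.trans ?_
        rw [pow_mul 2 lam]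
        exact Nat.pow_le_pow_left hlam1 _
      exact_mod_cast h1) (by
      intro ω q
      refine (hR ω q).trans ?_
      have h1 : n ^ (K * n) ≤ 2 ^ (lam * (K * n)) := by
        rw [pow_mul 2 lam]
        exact Nat.pow_le_pow_left hlam1 _
      refine h1.trans (Nat.pow_le_pow_right (by norm_num) ?_)
      rw [hβ]
      calc lam * (K * n) = K * (n * (1 * lam)) := by ring
        _ ≤ K * (n * (B * lam)) := by
          apply Nat.mul_le_mul_left
          apply Nat.mul_le_mul_left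
          exact Nat.mul_le_mul_right _ (by omega))
  refine ⟨f, fun c => ⟨?_, ?_⟩, ?_⟩
  · refine (hf1 c).1.trans ?_
    have h1 : w ≤ n ^ 2 := by
      refine hwn.trans ?_
      rw [pow_two]
      exact Nat.mul_le_mul_left _ hβn
    have h2 : 2 ^ β ≤ n ^ (2 * B) := by
      rw [hβ, mul_comm B lam, pow_mul, pow_mul]
      exact Nat.pow_le_pow_left hlam2 _
    calc w * 2 ^ β ≤ n ^ 2 * n ^ (2 * B) := Nat.mul_le_mul h1 h2
      _ = n ^ (2 + 2 * B) := by rw [pow_add]
      _ ≤ n ^ C := Nat.pow_le_pow_right (by omega) (by omega)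
  · refine (hf1 c).2.trans (h2w.trans ?_)
    apply Nat.pow_le_pow_right (by omega)
    exact Nat.mul_le_mul_right _ (by omega)
  · intro F _ _
    refine (hf2 F).trans ?_
    have h1 : (2 : ℝ) ^ (-((w : ℝ) / C₀)) ≤ 1 / (n : ℝ) ^ T := by
      have h2 : (T * lam : ℝ) ≤ (w : ℝ) / C₀ := by
        rw [le_div_iff₀ (by linarith), hw]
        push_cast
        rw [mul_comm]
        apply mul_le_mul_of_nonneg_right _ (by linarith)
        refine le_trans ?_ hC₀le
        have hB0 : (0 : ℝ) ≤ B := Nat.cast_nonneg _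
        nlinarith
      calc (2 : ℝ) ^ (-((w : ℝ) / C₀)) ≤ 2 ^ (-(T * lam : ℝ)) := by
            apply Real.rpow_le_rpow_of_exponent_le (by norm_num)
            linarith
        _ = 1 / ((2 : ℝ) ^ lam) ^ T := by
            rw [Real.rpow_neg (by norm_num), ← one_div, ← pow_mul, ← Real.rpow_natCast]
            congr 2
            push_cast
            ring
        _ ≤ 1 / (n : ℝ) ^ T := by
            apply one_div_le_one_div_of_le (by positivity)
            apply pow_le_pow_left₀ (by linarith)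
            exact_mod_cast hlam1
    linarith

end Pool.Agent.W964.Wd
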